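import Pool.Agent.Lib.MZDim.ZMain

/-! MP_301213_nt. The dimension of the space of multiple zeta values of weight `k` grows at least
linearly in `k`: `k < 1098 dim Z_k` for all `k ≥ 2`, and `dim Z_k ≥ 2` for all `k ≥ 306`. -/

namespace Pool.Agent.Results.MP_301213_nt.DimGrowth

/-- The multiple zeta value of the word `s = (s_1, ..., s_n)` (in the convention of the frozen
statement, the first letter belongs to the largest variable):
`∑_{m_1 > m_2 > ... > m_n > 0} 1 / (m_1 ^ s_1 * ... * m_n ^ s_n)`. -/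
noncomputable def mzv (s : List ℕ) : ℝ :=
  ∑' m : {m : Fin s.length → ℕ // StrictAnti m ∧ ∀ i, 0 < m i},
    ∏ i, ((m.1 i : ℝ) ^ (s.get i))⁻¹

/-- `Z_k`: the `ℚ`-span of all multiple zeta values of weight `k`. -/
noncomputable def Z (k : ℕ) : Submodule ℚ ℝ :=
  Submodule.span ℚ {x : ℝ | ∃ s : List ℕ,
    (∀ a ∈ s, 1 ≤ a) ∧ (∀ a ∈ s.head?, 2 ≤ a) ∧ s.sum = k ∧ x = mzv s}

/-- The `ℚ`-span of the Hoffman elements of weight `k` (all letters `2` or `3`). -/
noncomputable def HoffmanSpan (k : ℕ) : Submodule ℚ ℝ :=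
  Submodule.span ℚ {x : ℝ | ∃ s : List ℕ, (∀ a ∈ s, a = 2 ∨ a = 3) ∧ s.sum = k ∧ x = mzv s}

/-- For every `k ≥ 2` the dimension of `Z_k` over `ℚ` is larger than `k / 1098`, and it is at
least `2` if `k ≥ 306`. The same lower bounds hold for the size of a `ℚ`-linearly independent set
of multiple zeta values of weight `k` all of whose letters are at least `2` and, if the Hoffman
elements of weight `k` span `Z_k` (theorem of Brown), for the size of a linearly independent set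
of Hoffman elements of weight `k`. -/
theorem result (k : ℕ) (hk : 2 ≤ k) :
    (k < 1098 * Module.finrank ℚ (Z k) ∧ (306 ≤ k → 2 ≤ Module.finrank ℚ (Z k))) ∧
    (∃ W : Finset (List ℕ), (∀ s ∈ W, (∀ a ∈ s, 2 ≤ a) ∧ s.sum = k) ∧
      LinearIndependent ℚ (fun s : W => mzv s) ∧
      k < 1098 * W.card ∧ (306 ≤ k → 2 ≤ W.card)) ∧
    (HoffmanSpan k = Z k →
      ∃ W : Finset (List ℕ), (∀ s ∈ W, (∀ a ∈ s, a = 2 ∨ a = 3) ∧ s.sum = k) ∧
        LinearIndependent ℚ (fun s : W => mzv s) ∧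
        k < 1098 * W.card ∧ (306 ≤ k → 2 ≤ W.card)) := by
  have hZ : Z = Pool.MZDim.Zk := by
    funext k
    unfold Z Pool.MZDim.Zk
    congr 1
    ext x
    constructor
    · rintro ⟨s, h1, h2, h3, h4⟩
      exact ⟨s, ⟨h1, h2, h3⟩, h4.symm⟩
    · rintro ⟨s, ⟨h1, h2, h3⟩, h4⟩
      exact ⟨s, h1, h2, h3, h4.symm⟩
  have hH : ∀ k, HoffmanSpan k =
      Submodule.span ℚ (Pool.MZDim.mzv '' {s : List ℕ | (∀ a ∈ s, a = 2 ∨ a = 3) ∧ s.sum = k}) := by
    intro k
    unfold HoffmanSpan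
    congr 1
    ext x
    constructor
    · rintro ⟨s, h1, h3, h4⟩
      exact ⟨s, ⟨h1, h3⟩, h4.symm⟩
    · rintro ⟨s, ⟨h1, h3⟩, h4⟩
      exact ⟨s, h1, h3, h4.symm⟩
  rw [hH, hZ]
  exact Pool.MZDim.main k hk

end Pool.Agent.Results.MP_301213_nt.DimGrowth
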