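import Pool.Agent.Lib.MZExp.Grow
import Pool.Agent.Lib.MZDim.ZMain

/-! MP_301213_nt. The dimension of the space of multiple zeta values of weight `k` grows
exponentially in `k`: `dim Z_k ≥ (27/25)^k` for all large `k`. -/

namespace Pool.Agent.Results.MP_301213_nt.ExpGrowth

/-- The multiple zeta value of the word `s = (s_1, ..., s_n)` (in the convention of the frozen
statement, the first letter belongs to the largest variable):
`∑_{m_1 > m_2 > ... > m_n > 0} 1 / (m_1 ^ s_1 * ... * m_n ^ s_n)`. -/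
noncomputable def mzv (s : List ℕ) : ℝ :=
  ∑' m : {m : Fin s.length → ℕ // StrictAnti m ∧ ∀ i, 0 < m i},
    ∏ i, ((m.1 i : ℝ) ^ (s.get i))⁻¹

/-- `Z_k`: the `ℚ`-span of all multiple zeta values of weight `k`. -/
noncomputable def Z (k : ℕ) : Submodule ℚ ℝ :=
  Submodule.span ℚ {x : ℝ | ∃ s : List ℕ,
    (∀ a ∈ s, 1 ≤ a) ∧ (∀ a ∈ s.head?, 2 ≤ a) ∧ s.sum = k ∧ x = mzv s}

/-- The `ℚ`-span of the Hoffman elements of weight `k` (all letters `2` or `3`). -/
noncomputable def HoffmanSpan (k : ℕ) : Submodule ℚ ℝ :=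
  Submodule.span ℚ {x : ℝ | ∃ s : List ℕ, (∀ a ∈ s, a = 2 ∨ a = 3) ∧ s.sum = k ∧ x = mzv s}

/-- The three lower bounds by `b` in weight `k`: the dimension of `Z_k` over `ℚ` is at least `b`;
there is a `ℚ`-linearly independent set of at least `b` multiple zeta values of weight `k` with all
letters at least `2`; if the Hoffman elements of weight `k` span `Z_k` (theorem of Brown), there is a
`ℚ`-linearly independent set of at least `b` Hoffman elements of weight `k`. -/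
def Lower (k : ℕ) (b : ℝ) : Prop :=
  b ≤ Module.finrank ℚ (Z k) ∧
  (∃ W : Finset (List ℕ), (∀ s ∈ W, (∀ a ∈ s, 2 ≤ a) ∧ s.sum = k) ∧
    LinearIndependent ℚ (fun s : W => mzv s) ∧ b ≤ W.card) ∧
  (HoffmanSpan k = Z k →
    ∃ W : Finset (List ℕ), (∀ s ∈ W, (∀ a ∈ s, a = 2 ∨ a = 3) ∧ s.sum = k) ∧
      LinearIndependent ℚ (fun s : W => mzv s) ∧ b ≤ W.card)

theorem lower_of (k : ℕ) (b : ℝ) (h : b ≤ Module.finrank ℚ (Pool.MZDim.Yk k)) : Lower k b := by
  have hZ : Z = Pool.MZDim.Zk := by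
    funext k
    unfold Z Pool.MZDim.Zk
    congr 1
    ext x
    constructor
    · rintro ⟨s, h1, h2, h3, h4⟩
      exact ⟨s, ⟨h1, h2, h3⟩, h4.symm⟩
    · rintro ⟨s, ⟨h1, h2, h3⟩, h4⟩
      exact ⟨s, h1, h2, h3, h4.symm⟩
  have hH : ∀ k, HoffmanSpan k =
      Submodule.span ℚ (Pool.MZDim.mzv '' {s : List ℕ | (∀ a ∈ s, a = 2 ∨ a = 3) ∧ s.sum = k}) := by
    intro k
    unfold HoffmanSpan
    congr 1
    ext x
    constructor
    · rintro ⟨s, h1, h3, h4⟩
      exact ⟨s, ⟨h1, h3⟩, h4.symm⟩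
    · rintro ⟨s, ⟨h1, h3⟩, h4⟩
      exact ⟨s, h1, h3, h4.symm⟩
  have h2 : b ≤ Module.finrank ℚ (Pool.MZDim.Zk k) :=
    h.trans (by exact_mod_cast Pool.MZDim.finrank_mono_of_le (Pool.MZDim.Yk_le k))
  refine ⟨by rw [hZ]; exact h2, ?_, fun hH' => ?_⟩
  · obtain ⟨-, W, hW1, hW2, hW3⟩ := Pool.MZDim.exists_words Pool.MZDim.mzv _ (Pool.MZDim.adm_finite k)
    rw [← Pool.MZDim.Yk_eq] at hW3
    exact ⟨W, fun s hs => hW1 s hs, hW2, by rw [hW3]; exact h⟩
  · rw [hH, hZ] at hH'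
    have hfin : {s : List ℕ | (∀ a ∈ s, a = 2 ∨ a = 3) ∧ s.sum = k}.Finite := by
      refine (Pool.MZDim.adm_finite k).subset ?_
      rintro s ⟨hs1, hs2⟩
      refine ⟨fun a ha => ?_, hs2⟩
      rcases hs1 a ha with h | h <;> omega
    obtain ⟨-, W, hW1, hW2, hW3⟩ := Pool.MZDim.exists_words Pool.MZDim.mzv _ hfin
    rw [hH'] at hW3
    exact ⟨W, fun s hs => hW1 s hs, hW2, by rw [hW3]; exact h2⟩

/-- For all sufficiently large `k` the dimension of `Z_k` over `ℚ` is at least `(27/25)^k = 1.08^k`.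
The same lower bound holds for the size of a `ℚ`-linearly independent set of multiple zeta values
of weight `k` all of whose letters are at least `2` and, if the Hoffman elements of weight `k`
span `Z_k` (theorem of Brown), for the size of a linearly independent set of Hoffman elements of
weight `k`. -/
theorem result : ∃ k₀ : ℕ, ∀ k : ℕ, k₀ ≤ k → Lower k ((27 / 25 : ℝ) ^ k) := by
  obtain ⟨k₀, h⟩ := Filter.eventually_atTop.1 Pool.MZExp.dim_exp
  exact ⟨k₀, fun k hk => lower_of k _ (h k hk)⟩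

end Pool.Agent.Results.MP_301213_nt.ExpGrowth
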